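import Mathlib
import Pool.Agent.Y705.OP.Cont
import Pool.Agent.Y327.Full

/-! # MP_77d073_nt: one counterexample gives continuum many inequivalent ones

Let `n ≥ 3`.

1. Let `L 1, ..., L n` be a counterexample to Oppenheim's conjecture, `ν > 0` a lower bound of the
   absolute value of the product at the nonzero integer points.  Among the limits of the systems
   `a i • (L i ∘ γ)` (`a` positive of product one, `γ` integral of determinant `±1`) there is a
   family of the cardinality of the continuum of counterexamples with the same `ν`, no two of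
   which are equivalent: the product of one is not a real multiple of the product of another one
   composed with a rational matrix.
2. Oppenheim's conjecture in dimension `n` holds if and only if its counterexamples in dimension
   `n` lie in countably many classes of this equivalence. -/

set_option autoImplicit false

open Filter Topology

namespace Pool.Agent.Results.MP_77d073_nt.ContinuumMany

variable {n : ℕ}

/-- the product of the linear forms with the coefficients `L i`, at a real point -/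
noncomputable def F (L : Fin n → Fin n → ℝ) (x : Fin n → ℝ) : ℝ :=
  ∏ i : Fin n, ∑ j : Fin n, L i j * x j

/-- the absolute value of the product is at least `ν` at the nonzero integer points -/
def AtLeast (L : Fin n → Fin n → ℝ) (ν : ℝ) : Prop :=
  ∀ p : Fin n → ℤ, p ≠ 0 → ν ≤ |F L (fun j => (p j : ℝ))|

/-- Oppenheim's conclusion: there is an irreducible RS-matrix whose invariant planes are the
hyperplanes `L i = 0`. -/
def HasMatrix (L : Fin n → Fin n → ℝ) : Prop :=
  ∃ A : Matrix (Fin n) (Fin n) ℤ,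
    A.det = 1 ∧
    Irreducible (A.charpoly.map (Int.castRingHom ℚ)) ∧
    (∀ z : ℂ, Polynomial.aeval z A.charpoly = 0 → z.im = 0) ∧
    ∀ i : Fin n, ∀ x : Fin n → ℝ, ∑ j, L i j * x j = 0 →
      ∑ j, L i j * ((A.map (Int.cast : ℤ → ℝ)).mulVec x) j = 0

/-- counterexamples to Oppenheim's conjecture, with the lower bound `ν` -/
def Counterexample (L : Fin n → Fin n → ℝ) (ν : ℝ) : Prop :=
  LinearIndependent ℝ L ∧ AtLeast L ν ∧ ¬ HasMatrix L

/-- Oppenheim's conjecture in dimension `n` -/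
def Oppenheim (n : ℕ) : Prop :=
  ∀ L : Fin n → Fin n → ℝ, LinearIndependent ℝ L → (∃ ν : ℝ, 0 < ν ∧ AtLeast L ν) → HasMatrix L

/-- The limits of the systems `a i • (L i ∘ γ)`, `a` positive of product one, `γ` integral of
determinant `±1`. -/
def Limits (L : Fin n → Fin n → ℝ) : Set (Fin n → Fin n → ℝ) :=
  closure {L' | ∃ (a : Fin n → ℝ) (γ : Matrix (Fin n) (Fin n) ℤ), (∀ i, 0 < a i) ∧
    ∏ i, a i = 1 ∧ |γ.det| = 1 ∧ ∀ i j, L' i j = a i * ∑ k, L i k * (γ k j : ℝ)}

/-- On the integer points, the product of the `L i` is a real multiple of the product of the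
`K i` composed with a rational matrix. -/
def Equivalent (L K : Fin n → Fin n → ℝ) : Prop :=
  ∃ (c : ℝ) (γ : Matrix (Fin n) (Fin n) ℚ), ∀ p : Fin n → ℤ,
    F L (fun j => (p j : ℝ)) = c * F K (fun j => ((γ.mulVec (fun k => (p k : ℚ)) j : ℚ) : ℝ))

lemma limits_eq (L : Fin n → Fin n → ℝ) (L' : Fin n → Fin n → ℝ) :
    L' ∈ Limits L ↔ Matrix.of L' ∈ closure (H715R2.Orb (Matrix.of L)) := by
  have h1 : {L' : Fin n → Fin n → ℝ | ∃ (a : Fin n → ℝ) (γ : Matrix (Fin n) (Fin n) ℤ),
      (∀ i, 0 < a i) ∧ ∏ i, a i = 1 ∧ |γ.det| = 1 ∧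
      ∀ i j, L' i j = a i * ∑ k, L i k * (γ k j : ℝ)} =
      (H715R2.Orb (Matrix.of L) : Set (Fin n → Fin n → ℝ)) := by
    ext h
    constructor
    · rintro ⟨a, γ, ha0, ha1, hγ, hh⟩
      refine ⟨a, γ, ha0, ha1, Int.isUnit_iff_abs_eq.2 hγ, ?_⟩
      funext i j
      rw [hh, Matrix.mul_assoc, Matrix.diagonal_mul, Matrix.mul_apply]
      rfl
    · rintro ⟨a, γ, ha0, ha1, hγ, hh⟩
      refine ⟨a, γ, ha0, ha1, Int.isUnit_iff_abs_eq.1 hγ, fun i j => ?_⟩
      rw [hh, Matrix.mul_assoc, Matrix.diagonal_mul, Matrix.mul_apply]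
      rfl
  unfold Limits
  rw [h1]
  rfl

lemma indep_of_det {L : Fin n → Fin n → ℝ} (h : (Matrix.of L).det ≠ 0) :
    LinearIndependent ℝ L := by
  have h1 : IsUnit (Matrix.of L) :=
    (Matrix.isUnit_iff_isUnit_det _).2 (isUnit_iff_ne_zero.2 h)
  exact Matrix.linearIndependent_rows_iff_isUnit.2 h1

lemma part_one (hn : 3 ≤ n) {L : Fin n → Fin n → ℝ} {ν : ℝ} (hν : 0 < ν)
    (hL : Counterexample L ν) :
    ∃ K : ℝ → Fin n → Fin n → ℝ, (∀ t, Counterexample (K t) ν ∧ K t ∈ Limits L) ∧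
      ∀ s t, s ≠ t → ¬ Equivalent (K s) (K t) := by
  obtain ⟨hL, hF, hA⟩ := hL
  have hdet := Pool.Agent.H905R2.Opp.det_ne hL
  have hint : ¬ H715R2.PropInt (Matrix.of L) := fun hP =>
    hA (Pool.Agent.H905R2.Opp.opp_of_propInt (by omega) hL ⟨ν, hν, hF⟩ hP)
  obtain ⟨K, hK, hne⟩ := Y705.OP.continuum_many hn hdet hν hF hint
  refine ⟨fun t => K t, fun t => ⟨⟨?_, (hK t).2.1, ?_⟩, ?_⟩, fun s t hst => ?_⟩
  · apply indep_of_det
    show (K t).det ≠ 0
    rw [← abs_ne_zero, H715R2.abs_det_closure (hK t).1, abs_ne_zero]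
    exact hdet
  · rintro ⟨A, -, hA1, -, hA2⟩
    have hdet2 : (K t).det ≠ 0 := by
      rw [← abs_ne_zero, H715R2.abs_det_closure (hK t).1, abs_ne_zero]
      exact hdet
    exact (hK t).2.2 (Y327.propInt_of_opp hn hdet2 hν (hK t).2.1 hA1 hA2)
  · exact (limits_eq _ _).2 (hK t).1
  · rintro ⟨c, γ, H⟩
    obtain ⟨x, hx⟩ := hne s t hst c γ
    exact hx (H x)

/-- equivalent counterexamples -/
lemma qe_of_equivalent (hn : 3 ≤ n) {L K : Fin n → Fin n → ℝ} {ν : ℝ} (hν : 0 < ν)
    (hL : AtLeast L ν) (h : Equivalent L K) : Y705.OP.QE (Matrix.of L) (Matrix.of K) := by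
  obtain ⟨c, γ, H⟩ := h
  exact Y705.OP.QE_of_int (by omega) hν hL H

lemma equivalent_of_qe {L K : Fin n → Fin n → ℝ}
    (h : Y705.OP.QE (Matrix.of L) (Matrix.of K)) : Equivalent L K := by
  obtain ⟨c, γ, -, -, H⟩ := h
  refine ⟨c, γ, fun p => ?_⟩
  have h1 := H (fun j => (p j : ℚ))
  have h2 : Y705.OP.qR (fun j => (p j : ℚ)) = fun j => (p j : ℝ) := by
    funext j
    simp [Y705.OP.qR]
  rw [h2] at h1
  exact h1

theorem result (n : ℕ) (hn : 3 ≤ n) :
    (∀ (L : Fin n → Fin n → ℝ) (ν : ℝ), 0 < ν → Counterexample L ν →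
      ∃ K : ℝ → Fin n → Fin n → ℝ, (∀ t, Counterexample (K t) ν ∧ K t ∈ Limits L) ∧
        ∀ s t, s ≠ t → ¬ Equivalent (K s) (K t)) ∧
    (Oppenheim n ↔ ∃ E : ℕ → Fin n → Fin n → ℝ, ∀ (L : Fin n → Fin n → ℝ) (ν : ℝ), 0 < ν →
      Counterexample L ν → ∃ m, Equivalent L (E m)) := by
  classical
  refine ⟨fun L ν hν hL => part_one hn hν hL, ?_, ?_⟩
  · intro hO
    refine ⟨fun _ => 0, fun L ν hν hL => ?_⟩
    exact absurd (hO L hL.1 ⟨ν, hν, hL.2.1⟩) hL.2.2
  · rintro ⟨E, hE⟩ L hL ⟨ν, hν, hF⟩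
    by_contra hA
    obtain ⟨K, hK, hne⟩ := part_one hn hν ⟨hL, hF, hA⟩
    choose m hm using fun t => hE (K t) ν hν (hK t).1
    have hninj : ¬ Function.Injective m := by
      intro hinj
      have : Countable ℝ := hinj.countable
      exact Cardinal.not_countable_real (Set.countable_univ_iff.2 this)
    simp only [Function.Injective, not_forall] at hninj
    obtain ⟨s, t, hst, hne'⟩ := hninj
    refine hne s t hne' ?_
    have h1 := qe_of_equivalent hn hν (hK s).1.2.1 (hm s)
    have h2 := qe_of_equivalent hn hν (hK t).1.2.1 (hm t)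
    rw [hst] at h1
    exact equivalent_of_qe (h1.trans h2.symm)

end Pool.Agent.Results.MP_77d073_nt.ContinuumMany
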