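import Mathlib
import Pool.Agent.Y327.Full

/-! # MP_77d073_nt: cubes of linear forms, and Oppenheim's conjecture for pairs

Let `n ≥ 3`.

1. Let `L 1, ..., L n` be a counterexample to Oppenheim's conjecture, `ν > 0` a lower bound of the
   absolute value of the product at the nonzero integer points. There is a partition of the indices
   into classes of the same size `s > 1` with the following property. Let `R` be any set which
   contains one index of each class. There are a limit `L'` of the systems `a i • (L i ∘ γ)` (`a`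
   positive of product one, `γ` integral of determinant `±1`) and, for each of the `n - n / s`
   indices `k` not in `R`, a nonzero combination `m k` of the `L' l` with `l ≠ k` in the class of
   `k`, such that for all `2 ^ (n - n / s)` sets `S` of indices not in `R` the forms `L' k + m k`
   (`k ∈ S`) and `L' k` (`k ∉ S`) are again a counterexample with the same `ν`, and a limit of the
   same kind. If `n` is prime, then `s = n` and `R` is any single index.
2. Let `i ≠ j` be two indices and `t ≠ 0`. Oppenheim's conjecture in dimension `n` is equivalent to: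
   for all independent `L 1, ..., L n` at least one of the product of the `L k` and the product in
   which `L i` is replaced by `L i + t • L j` is not bounded away from zero at the nonzero integer
   points.
3. Let `p` be the smallest prime factor of `n`. Oppenheim's conjecture in dimension `n` is
   equivalent to: there are no independent `L 1, ..., L n`, no set `K` of at least `n - n / p`
   indices and no nonzero combinations `m k`, `k ∈ K`, of the `L l`, `l ≠ k`, such that all
   `2 ^ |K|` products are bounded away from zero. -/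

set_option autoImplicit false

open Filter Topology

namespace Pool.Agent.Results.MP_77d073_nt.FullCubes

variable {n : ℕ}

/-- the product of the linear forms with the coefficients `L i`, at an integer point -/
noncomputable def F (L : Fin n → Fin n → ℝ) (p : Fin n → ℤ) : ℝ :=
  ∏ i : Fin n, ∑ j : Fin n, L i j * (p j : ℝ)

/-- the product is bounded away from zero at the nonzero integer points -/
def BoundedAway (L : Fin n → Fin n → ℝ) : Prop :=
  ∃ ν : ℝ, 0 < ν ∧ ∀ p : Fin n → ℤ, p ≠ 0 → ν ≤ |F L p|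

/-- Oppenheim's conclusion: there is an irreducible RS-matrix whose invariant planes are the
hyperplanes `L i = 0`. -/
def HasMatrix (L : Fin n → Fin n → ℝ) : Prop :=
  ∃ A : Matrix (Fin n) (Fin n) ℤ,
    A.det = 1 ∧
    Irreducible (A.charpoly.map (Int.castRingHom ℚ)) ∧
    (∀ z : ℂ, Polynomial.aeval z A.charpoly = 0 → z.im = 0) ∧
    ∀ i : Fin n, ∀ x : Fin n → ℝ, ∑ j, L i j * x j = 0 →
      ∑ j, L i j * ((A.map (Int.cast : ℤ → ℝ)).mulVec x) j = 0

/-- Oppenheim's conjecture in dimension `n` -/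
def Oppenheim (n : ℕ) : Prop :=
  ∀ L : Fin n → Fin n → ℝ, LinearIndependent ℝ L → BoundedAway L → HasMatrix L

/-- The limits of the systems `a i • (L i ∘ γ)`, `a` positive of product one, `γ` integral of
determinant `±1`. -/
def Limits (L : Fin n → Fin n → ℝ) : Set (Fin n → Fin n → ℝ) :=
  closure {L' | ∃ (a : Fin n → ℝ) (γ : Matrix (Fin n) (Fin n) ℤ), (∀ i, 0 < a i) ∧
    ∏ i, a i = 1 ∧ |γ.det| = 1 ∧ ∀ i j, L' i j = a i * ∑ k, L i k * (γ k j : ℝ)}

/-- The combination `∑ l, W k l • L l` is added to `L k`, for `k ∈ S`. -/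
def modify (L W : Fin n → Fin n → ℝ) (S : Finset (Fin n)) : Fin n → Fin n → ℝ :=
  fun k j => if k ∈ S then L k j + ∑ l, W k l * L l j else L k j

/-- `L i` is replaced by `L i + t • L j`. -/
def addForm (L : Fin n → Fin n → ℝ) (i j : Fin n) (t : ℝ) : Fin n → Fin n → ℝ :=
  Function.update L i (L i + t • L j)

lemma limits_eq (L : Fin n → Fin n → ℝ) (L' : Fin n → Fin n → ℝ) :
    L' ∈ Limits L ↔ Matrix.of L' ∈ closure (H715R2.Orb (Matrix.of L)) := by
  have h1 : {L' : Fin n → Fin n → ℝ | ∃ (a : Fin n → ℝ) (γ : Matrix (Fin n) (Fin n) ℤ),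
      (∀ i, 0 < a i) ∧ ∏ i, a i = 1 ∧ |γ.det| = 1 ∧
      ∀ i j, L' i j = a i * ∑ k, L i k * (γ k j : ℝ)} =
      (H715R2.Orb (Matrix.of L) : Set (Fin n → Fin n → ℝ)) := by
    ext h
    constructor
    · rintro ⟨a, γ, ha0, ha1, hγ, hh⟩
      refine ⟨a, γ, ha0, ha1, Int.isUnit_iff_abs_eq.2 hγ, ?_⟩
      funext i j
      rw [hh, Matrix.mul_assoc, Matrix.diagonal_mul, Matrix.mul_apply]
      rfl
    · rintro ⟨a, γ, ha0, ha1, hγ, hh⟩
      refine ⟨a, γ, ha0, ha1, Int.isUnit_iff_abs_eq.1 hγ, fun i j => ?_⟩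
      rw [hh, Matrix.mul_assoc, Matrix.diagonal_mul, Matrix.mul_apply]
      rfl
  unfold Limits
  rw [h1]
  rfl

lemma modify_eq (L W : Fin n → Fin n → ℝ) (S : Finset (Fin n)) :
    Matrix.of (modify L W S) = Y327.Md S W * Matrix.of L := by
  ext k j
  unfold Y327.Md
  rw [Matrix.add_mul, Matrix.one_mul, Matrix.add_apply, Matrix.mul_apply]
  simp only [modify, Matrix.of_apply]
  by_cases hk : k ∈ S
  · simp [hk]
  · simp [hk]

lemma modify_empty (L W : Fin n → Fin n → ℝ) : modify L W ∅ = L := by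
  funext k j
  simp [modify]

lemma addForm_eq (L : Fin n → Fin n → ℝ) (i j : Fin n) (t : ℝ) :
    addForm L i j t = modify L (fun _ l => if l = j then t else 0) {i} := by
  funext k l
  simp only [addForm, modify, Finset.mem_singleton]
  by_cases hk : k = i
  · subst hk
    simp
  · rw [if_neg hk, Function.update_of_ne hk]

lemma indep_of_det {L : Fin n → Fin n → ℝ} (h : (Matrix.of L).det ≠ 0) :
    LinearIndependent ℝ L := by
  have h1 : IsUnit (Matrix.of L) :=
    (Matrix.isUnit_iff_isUnit_det _).2 (isUnit_iff_ne_zero.2 h)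
  exact Matrix.linearIndependent_rows_iff_isUnit.2 h1

/-- two products with a common factor -/
lemma pair_false (hn : 3 ≤ n) (hO : Oppenheim n) {L : Fin n → Fin n → ℝ}
    (hL : LinearIndependent ℝ L) {W : Fin n → Fin n → ℝ} {k : Fin n} (hk : W k k = 0)
    (hk' : W k ≠ 0) (h1 : BoundedAway L) (h2 : BoundedAway (modify L W {k})) : False := by
  obtain ⟨ν₁, hν₁, hF₁⟩ := h1
  obtain ⟨ν₂, hν₂, hF₂⟩ := h2
  have hdet := Pool.Agent.H905R2.Opp.det_ne hL
  have hWk : Y327.Md {k} W = Y327.Md {k} (fun _ => W k) := by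
    ext a b
    simp only [Y327.Md, Matrix.add_apply, Matrix.of_apply, Finset.mem_singleton]
    by_cases ha : a = k
    · rw [if_pos ha, if_pos ha, ha]
    · rw [if_neg ha, if_neg ha]
  have hdet' : (Matrix.of (modify L W {k})).det ≠ 0 := by
    rw [modify_eq, hWk, Matrix.det_mul]
    exact mul_ne_zero (Y327.Md_det_ne hk) hdet
  have key : ∀ (L' : Fin n → Fin n → ℝ), (Matrix.of L').det ≠ 0 → ∀ ν : ℝ, 0 < ν →
      (∀ p : Fin n → ℤ, p ≠ 0 → ν ≤ |F L' p|) → H715R2.PropInt (Matrix.of L') := by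
    intro L' hd' ν hν hF
    obtain ⟨A, -, hA1, -, hA2⟩ := hO L' (indep_of_det hd') ⟨ν, hν, hF⟩
    exact Y327.propInt_of_opp hn hd' hν hF hA1 hA2
  have h3 := key L hdet ν₁ hν₁ hF₁
  have h4 := key _ hdet' ν₂ hν₂ hF₂
  rw [modify_eq, hWk] at h4
  refine hk' (Y327.unique_factor (by omega) hdet (lt_min hν₁ hν₂)
    (fun p hp => (min_le_left _ _).trans (hF₁ p hp)) h3 hk (fun p hp => ?_) h4)
  rw [← hWk, ← modify_eq]
  exact (min_le_right _ _).trans (hF₂ p hp)

/-- every counterexample has full cubes in its closure -/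
lemma cubes (hn : 3 ≤ n) {L : Fin n → Fin n → ℝ} (hL : LinearIndependent ℝ L) {ν : ℝ}
    (hν : 0 < ν) (hF : ∀ p : Fin n → ℤ, p ≠ 0 → ν ≤ |F L p|) (hA : ¬ HasMatrix L) :
    ∃ (s : ℕ) (c : Fin n → Fin n), 1 < s ∧ s ∣ n ∧ (∀ i, Nat.card {j // c j = c i} = s) ∧
      (∀ i j, i ≠ j → c i = c j → ∀ t : ℝ, ∃ h ∈ closure (H715R2.Orb (Matrix.of L)),
        Matrix.transvection i j t * h ∈ closure (H715R2.Orb (Matrix.of L))) ∧
      ∀ R : Finset (Fin n), (∀ i, ∃! k, k ∈ R ∧ c k = c i) →
        ∃ L' ∈ Limits L, ∃ W : Fin n → Fin n → ℝ,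
          (∀ k, k ∉ R → W k k = 0 ∧ W k ≠ 0 ∧ ∀ l, W k l ≠ 0 → c l = c k) ∧
          ∀ S : Finset (Fin n), (∀ k ∈ S, k ∉ R) → modify L' W S ∈ Limits L ∧
            LinearIndependent ℝ (modify L' W S) ∧ ¬ HasMatrix (modify L' W S) ∧
            ∀ p : Fin n → ℤ, p ≠ 0 → ν ≤ |F (modify L' W S) p| := by
  have hdet := Pool.Agent.H905R2.Opp.det_ne hL
  have hint : ¬ H715R2.PropInt (Matrix.of L) := fun hP =>
    hA (Pool.Agent.H905R2.Opp.opp_of_propInt (by omega) hL ⟨ν, hν, hF⟩ hP)
  obtain ⟨s, c, hs, hsd, hcard, hroot, hcube⟩ := Y327.exists_classes hn hdet hν hF hint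
  refine ⟨s, c, hs, hsd, hcard, hroot, fun R hR => ?_⟩
  obtain ⟨h, hh, W, hW, hS⟩ := hcube R hR
  obtain ⟨L', rfl⟩ : ∃ L' : Fin n → Fin n → ℝ, Matrix.of L' = h := ⟨h, rfl⟩
  refine ⟨L', (limits_eq L L').2 hh, W, hW, fun S hSR => ?_⟩
  have h1 := hS S hSR
  have h2 : Matrix.of (modify L' W S) ∈ closure (H715R2.Orb (Matrix.of L)) := by
    rw [modify_eq]
    exact h1
  have hdet2 : (Matrix.of (modify L' W S)).det ≠ 0 := by
    rw [← abs_ne_zero, H715R2.abs_det_closure h2, abs_ne_zero]
    exact hdet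
  have hnu2 := H715R2.hasNu_closure hF h2
  refine ⟨(limits_eq _ _).2 h2, indep_of_det hdet2, ?_, hnu2⟩
  rintro ⟨A, -, hA1, -, hA2⟩
  exact Y327.not_propInt_closure hn hdet hν hF hint h2
    (Y327.propInt_of_opp hn hdet2 hν hnu2 hA1 hA2)

lemma exists_perm {i j i' j' : Fin n} (hij : i ≠ j) (hij' : i' ≠ j') :
    ∃ σ : Equiv.Perm (Fin n), σ i = i' ∧ σ j = j' := by
  have h1 : Equiv.swap i i' j ≠ i' := by
    intro h
    have h2 : Equiv.swap i i' i = i' := Equiv.swap_apply_left i i'
    exact hij ((Equiv.swap i i').injective (h2.trans h.symm))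
  refine ⟨(Equiv.swap i i').trans (Equiv.swap (Equiv.swap i i' j) j'), ?_, ?_⟩
  · rw [Equiv.trans_apply, Equiv.swap_apply_left, Equiv.swap_apply_of_ne_of_ne h1.symm hij']
  · rw [Equiv.trans_apply, Equiv.swap_apply_left]

lemma F_perm (σ : Equiv.Perm (Fin n)) (L : Fin n → Fin n → ℝ) (p : Fin n → ℤ) :
    F (fun k => L (σ k)) p = F L p := by
  unfold F
  exact Equiv.prod_comp σ (fun k => ∑ j, L k j * (p j : ℝ))

theorem result (n : ℕ) (hn : 3 ≤ n) :
    -- 1. every counterexample
    (∀ L : Fin n → Fin n → ℝ, LinearIndependent ℝ L → ∀ ν : ℝ, 0 < ν →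
      (∀ p : Fin n → ℤ, p ≠ 0 → ν ≤ |F L p|) → ¬ HasMatrix L →
      ∃ (s : ℕ) (c : Fin n → Fin n), 1 < s ∧ s ∣ n ∧ (∀ i, Nat.card {j // c j = c i} = s) ∧
        ∀ R : Finset (Fin n), (∀ i, ∃! k, k ∈ R ∧ c k = c i) →
          ∃ L' ∈ Limits L, ∃ W : Fin n → Fin n → ℝ,
            (∀ k, k ∉ R → W k k = 0 ∧ W k ≠ 0 ∧ ∀ l, W k l ≠ 0 → c l = c k) ∧
            ∀ S : Finset (Fin n), (∀ k ∈ S, k ∉ R) → modify L' W S ∈ Limits L ∧
              LinearIndependent ℝ (modify L' W S) ∧ ¬ HasMatrix (modify L' W S) ∧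
              ∀ p : Fin n → ℤ, p ≠ 0 → ν ≤ |F (modify L' W S) p|) ∧
    -- 2. two products with `n - 1` common factors
    (∀ i j : Fin n, i ≠ j → ∀ t : ℝ, t ≠ 0 →
      (Oppenheim n ↔ ∀ L : Fin n → Fin n → ℝ, LinearIndependent ℝ L →
        ¬ (BoundedAway L ∧ BoundedAway (addForm L i j t)))) ∧
    -- 3. cubes
    (Oppenheim n ↔ ∀ L : Fin n → Fin n → ℝ, LinearIndependent ℝ L →
      ∀ (K : Finset (Fin n)) (W : Fin n → Fin n → ℝ), n ≤ K.card + n / n.minFac →
        (∀ k ∈ K, W k k = 0 ∧ W k ≠ 0) → ∃ S ⊆ K, ¬ BoundedAway (modify L W S)) := by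
  classical
  refine ⟨?_, ?_, ?_⟩
  · intro L hL ν hν hF hA
    obtain ⟨s, c, hs, hsd, hcard, -, hcube⟩ := cubes hn hL hν hF hA
    exact ⟨s, c, hs, hsd, hcard, hcube⟩
  · intro i j hij t ht
    constructor
    · rintro hO L hL ⟨h1, h2⟩
      rw [addForm_eq] at h2
      refine pair_false hn hO hL (k := i) ?_ ?_ h1 h2
      · simp [hij]
      · intro h0
        have := congrFun h0 j
        simp only [if_true, Pi.zero_apply] at this
        exact ht this
    · intro hpair L hL hb
      by_contra hA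
      obtain ⟨ν, hν, hF⟩ := hb
      obtain ⟨s, c, hs, hsd, hcard, hroot, -⟩ := cubes hn hL hν hF hA
      -- two indices in the same class
      obtain ⟨i', j', hij', hc⟩ : ∃ i' j' : Fin n, i' ≠ j' ∧ c i' = c j' := by
        have h1 := hcard ⟨0, by omega⟩
        rw [← h1, Nat.card_eq_fintype_card, Fintype.one_lt_card_iff] at hs
        obtain ⟨⟨a, ha⟩, ⟨b, hb⟩, hab⟩ := hs
        exact ⟨a, b, fun h => hab (Subtype.ext h), ha.trans hb.symm⟩
      obtain ⟨h, hh, hh'⟩ := hroot i' j' hij' hc t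
      obtain ⟨L', rfl⟩ : ∃ L' : Fin n → Fin n → ℝ, Matrix.of L' = h := ⟨h, rfl⟩
      obtain ⟨σ, hσi, hσj⟩ := exists_perm hij hij'
      have hdet := Pool.Agent.H905R2.Opp.det_ne hL
      have hdet1 : (Matrix.of L').det ≠ 0 := by
        rw [← abs_ne_zero, H715R2.abs_det_closure hh, abs_ne_zero]
        exact hdet
      have hnu1 := H715R2.hasNu_closure hF hh
      rw [← Y327.Md_eq_transvection, ← modify_eq, ← addForm_eq] at hh'
      have hnu2 := H715R2.hasNu_closure hF hh'
      have hperm : addForm (fun k => L' (σ k)) i j t = fun k => addForm L' i' j' t (σ k) := by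
        funext k
        by_cases hk : k = i
        · subst hk
          simp only [addForm, Function.update_self, hσi, hσj]
        · have hk' : σ k ≠ i' := fun h0 => hk (σ.injective (h0.trans hσi.symm))
          simp only [addForm, Function.update_of_ne hk, Function.update_of_ne hk']
      have hind : LinearIndependent ℝ (fun k => L' (σ k)) :=
        (indep_of_det hdet1).comp σ σ.injective
      refine hpair (fun k => L' (σ k)) hind ⟨⟨ν, hν, fun p hp => ?_⟩, ν, hν, fun p hp => ?_⟩
      · rw [F_perm]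
        exact hnu1 p hp
      · rw [hperm, F_perm σ (addForm L' i' j' t)]
        exact hnu2 p hp
  · have hmf : n / n.minFac < n := Nat.div_lt_self (by omega)
      (Nat.minFac_prime (by omega)).one_lt
    constructor
    · intro hO L hL K W hK hW
      by_contra hcon
      push Not at hcon
      obtain ⟨k, hk⟩ : K.Nonempty := by
        rw [← Finset.card_pos]; omega
      have h1 := hcon ∅ (Finset.empty_subset _)
      rw [modify_empty] at h1
      exact pair_false hn hO hL (hW k hk).1 (hW k hk).2 h1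
        (hcon {k} (Finset.singleton_subset_iff.2 hk))
    · intro hcube L hL hb
      by_contra hA
      obtain ⟨ν, hν, hF⟩ := hb
      obtain ⟨s, c, hs, hsd, hcard, -, hR'⟩ := cubes hn hL hν hF hA
      obtain ⟨R, hR⟩ := Y327.exists_reps c
      obtain ⟨L', hL', W, hW, hS⟩ := hR' R hR
      have hRs := Y327.card_reps hs hsd hcard hR
      have h0 := hS ∅ (by simp)
      rw [modify_empty] at h0
      have hRc : R.card ≤ n / n.minFac := by
        rw [Nat.le_div_iff_mul_le (Nat.minFac_pos n)]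
        calc R.card * n.minFac ≤ R.card * s :=
              Nat.mul_le_mul_left _ (Nat.minFac_le_of_dvd hs hsd)
          _ = n := hRs
      obtain ⟨S, hSK, hSb⟩ := hcube L' h0.2.1 Rᶜ W (by
        rw [Finset.card_compl, Fintype.card_fin]; omega) (fun k hk => by
        obtain ⟨h1, h2, -⟩ := hW k (Finset.mem_compl.1 hk)
        exact ⟨h1, h2⟩)
      exact hSb ⟨ν, hν, (hS S fun k hk => Finset.mem_compl.1 (hSK hk)).2.2.2⟩

end Pool.Agent.Results.MP_77d073_nt.FullCubes
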