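import Mathlib
import Pool.Agent.Y906.GF4
import Pool.Agent.H905R2.OppD

/-!
# Counterexamples to Oppenheim's conjecture (three forms) have return-free boxes on every long path

Let `L 1, L 2, L 3` be real linear forms in three variables with determinant `±1`.  For `(x, y)` in
the plane let `frame L x y` be the matrix of the forms `e^{-(x+y)} L 1`, `e^x L 2`, `e^y L 3`: the
plane is the group of the positive diagonal matrices of determinant one.  Two matrices are `δ`-near
if one is obtained from the other by a matrix `u` with off-diagonal entries at most `δ` and diagonal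
entries between `1/2` and `2`, and by a change of the basis of the lattice of integer points.  A near
return in a box `[s, s+T] × [t, t+T]` is a pair of times in the box, at distance at least one, whose
matrices are `δ`-near.

We show: for every `ε > 0` there is `κ > 0` with the following property.  Let `|L 1 L 2 L 3| ≥ ε` at
the nonzero integer points, and let `L` violate the conclusion of Oppenheim's conjecture.  Then for
every `δ` in `(0, 1)` there is a length `D` such that every path in the plane, with steps at most one
and with end points at distance at least `D`, passes through a point `(s, t)` such that the box of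
side `κ log (1/δ)` at `(s, t)` has no near return.

So the set of the boxes with near returns has only bounded connected components, of diameter at most
`D`, at every scale `δ` (for the forms of the conclusion of the conjecture all boxes of large side
have exact returns).  The number of classes of matrices at scale `δ` is at least
`(κ log (1/δ))²` along every long path.

The proof: near returns in boxes of this size are nearly diagonal integer matrices in a reduced
basis; two of them commute, since their commutator would give an integer point with small product;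
so the near returns along a path belong to one cubic field, and by their size to a finite set.  For a
sequence of longer and longer paths a limit of the starting points has bounded returns from a finite
set at times tending to infinity, hence one integer matrix is a bounded return at times tending to
infinity, and a further limit has a row in a cubic field.  This is excluded by the isolation theorem
of Cassels and Swinnerton-Dyer (`H715R2.limit_alg`).
-/

set_option autoImplicit false

namespace Pool.Agent.Results.MP_77d073_nt.ReturnFreeBoxes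

/-- the product of the linear forms with the coefficients `L i`, at an integer point -/
noncomputable def F (L : Fin 3 → Fin 3 → ℝ) (p : Fin 3 → ℤ) : ℝ :=
  ∏ i : Fin 3, ∑ j : Fin 3, L i j * (p j : ℝ)

/-- Oppenheim's conclusion: there is an irreducible RS-matrix whose invariant planes are the
hyperplanes `L i = 0`. -/
def HasMatrix (L : Fin 3 → Fin 3 → ℝ) : Prop :=
  ∃ A : Matrix (Fin 3) (Fin 3) ℤ,
    A.det = 1 ∧
    Irreducible (A.charpoly.map (Int.castRingHom ℚ)) ∧
    (∀ z : ℂ, Polynomial.aeval z A.charpoly = 0 → z.im = 0) ∧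
    ∀ i : Fin 3, ∀ x : Fin 3 → ℝ, ∑ j, L i j * x j = 0 →
      ∑ j, L i j * ((A.map (Int.cast : ℤ → ℝ)).mulVec x) j = 0

/-- the matrix of the forms `e^{-(x+y)} L 1`, `e^x L 2`, `e^y L 3` -/
noncomputable def frame (L : Fin 3 → Fin 3 → ℝ) (x y : ℝ) : Matrix (Fin 3) (Fin 3) ℝ :=
  Matrix.diagonal ![Real.exp (-(x + y)), Real.exp x, Real.exp y] * Matrix.of L

/-- `h'` is obtained from `h` by a nearly diagonal matrix and a change of basis -/
def Near (δ : ℝ) (h h' : Matrix (Fin 3) (Fin 3) ℝ) : Prop :=
  ∃ (u : Matrix (Fin 3) (Fin 3) ℝ) (γ : Matrix (Fin 3) (Fin 3) ℤ), |γ.det| = 1 ∧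
    h' = u * h * γ.map (Int.cast : ℤ → ℝ) ∧ (∀ i j, i ≠ j → |u i j| ≤ δ) ∧
    ∀ i, 1 / 2 ≤ u i i ∧ u i i ≤ 2

/-- the box of side `T` at `(s, t)` has no near return -/
def ReturnFree (L : Fin 3 → Fin 3 → ℝ) (δ T s t : ℝ) : Prop :=
  ∀ x ∈ Set.Icc s (s + T), ∀ y ∈ Set.Icc t (t + T),
    ∀ x' ∈ Set.Icc s (s + T), ∀ y' ∈ Set.Icc t (t + T),
      (1 ≤ |x - x'| ∨ 1 ≤ |y - y'|) → ¬ Near δ (frame L x y) (frame L x' y')

lemma frame_eq (L : Fin 3 → Fin 3 → ℝ) (x y : ℝ) :
    frame L x y = Pool.Agent.Y906.GF.Lt (Matrix.of L) x y := by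
  unfold frame Pool.Agent.Y906.GF.Lt
  congr 2
  funext i
  fin_cases i <;> rfl

/-- **Main result.** -/
theorem result (ε : ℝ) (hε : 0 < ε) : ∃ κ : ℝ, 0 < κ ∧ ∀ L : Fin 3 → Fin 3 → ℝ,
    |(Matrix.of L).det| = 1 → (∀ p : Fin 3 → ℤ, p ≠ 0 → ε ≤ |F L p|) → ¬ HasMatrix L →
    ∀ δ : ℝ, 0 < δ → δ < 1 → ∃ D : ℝ, ∀ (s t : ℕ → ℝ) (n : ℕ),
      (∀ k, k < n → |s (k + 1) - s k| ≤ 1 ∧ |t (k + 1) - t k| ≤ 1) →
      D ≤ max |s n - s 0| |t n - t 0| →
      ∃ k ≤ n, ReturnFree L δ (κ * Real.log (1 / δ)) (s k) (t k) := by
  obtain ⟨κ, hκ, H⟩ := Pool.Agent.Y906.GF.return_free ε hε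
  refine ⟨κ, hκ, fun L hdet hF hM δ h0 h1 => ?_⟩
  have hdet0 : (Matrix.of L).det ≠ 0 := by
    intro h
    rw [h, abs_zero] at hdet
    exact zero_ne_one hdet
  have hL : LinearIndependent ℝ L :=
    Matrix.linearIndependent_rows_iff_isUnit.2
      ((Matrix.isUnit_iff_isUnit_det _).2 (isUnit_iff_ne_zero.2 hdet0))
  have hP : ¬ H715R2.PropInt (Matrix.of L) := fun hP =>
    hM (Pool.Agent.H905R2.Opp.opp_of_propInt (by norm_num) hL ⟨ε, hε, hF⟩ hP)
  obtain ⟨D, hD⟩ := H (Matrix.of L) hdet hF hP δ h0 h1
  refine ⟨D, fun s t n hstep hfar => ?_⟩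
  obtain ⟨k, hk, h⟩ := hD s t n hstep hfar
  refine ⟨k, hk, fun x hx y hy x' hx' y' hy' hne hnr => ?_⟩
  rw [frame_eq, frame_eq] at hnr
  exact h x y x' y' hx hy hx' hy' hne hnr

end Pool.Agent.Results.MP_77d073_nt.ReturnFreeBoxes
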